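import Mathlib
import Pool.Agent.TH314.PD.Core

/-! # Project UL: parametrizations of odd degree by cubic forms; linear subspaces of smooth cubic
hypersurfaces whose quadric bundle has a rational section (statements of jobs) -/

set_option autoImplicit false

namespace Pool.Agent.Q35.UL

open MvPolynomial Pool.Agent.TH314.PD Module

noncomputable section

/-- the linear space spanned by the vectors `e a` is contained in the hypersurface, and its quadric
bundle has a rational section: there are polynomials `r ≠ 0` and `c a` in the coordinates of a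
general point `X` of the space such that the point `r X + ∑ c a e a` of the space spanned by `X` and
the `e a` lies on the hypersurface -/
def Section {n k : ℕ} (F : MvPolynomial (Fin (n + 2)) ℂ) (e : Fin k → Fin (n + 2) → ℂ) : Prop :=
  ∃ (r : MvPolynomial (Fin (n + 2)) ℂ) (c : Fin k → MvPolynomial (Fin (n + 2)) ℂ), r ≠ 0 ∧
    aeval (fun i => r * X i + ∑ a, c a * C (e a i)) F = 0

/-- job NB: forms without a common zero -/
def S_NB : Prop :=
  ∀ (n D d : ℕ) (F : MvPolynomial (Fin (n + 2)) ℂ), F.IsHomogeneous d → F ≠ 0 → 1 ≤ D →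
    ∀ (M : Type) [Field M] [Algebra ℂ M] (s : Fin (n + 1) → M),
    (∀ (e : ℕ) (H : MvPolynomial (Fin (n + 1)) ℂ), H.IsHomogeneous e → aeval s H = 0 → H = 0) →
    ratioField s = ⊤ →
    ∀ G : Fin (n + 2) → MvPolynomial (Fin (n + 1)) ℂ, (∀ i, (G i).IsHomogeneous D) →
    aeval G F = 0 → (∀ b : Fin (n + 1) → ℂ, (∀ i, eval b (G i) = 0) → b = 0) →
    FiniteDimensional (ratioField fun i => aeval s (G i)) M →
    D ^ n ≤ d * finrank (ratioField fun i => aeval s (G i)) M

/-- job RAT: a smooth cubic hypersurface with a linear subspace whose quadric bundle has a rational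
section is rational -/
def S_RAT : Prop :=
  ∀ (n k : ℕ) (F : MvPolynomial (Fin (n + 2)) ℂ), 1 ≤ n → F.IsHomogeneous 3 →
    (∀ z : Fin (n + 2) → ℂ, (∀ i, eval z (pderiv i F) = 0) → z = 0) →
    ∀ e : Fin k → Fin (n + 2) → ℂ, LinearIndependent ℂ e →
    (∀ c : Fin k → ℂ, eval (fun i => ∑ a, c a * e a i) F = 0) → Section F e →
    ∃ G : Fin (n + 2) → MvPolynomial (Fin n) ℂ, aeval G F = 0 ∧
      (∀ (e : ℕ) (H : MvPolynomial (Fin (n + 2)) ℂ), H.IsHomogeneous e → aeval G H = 0 →
        F ∣ H) ∧
      finrank (ratioField fun i => algebraMap (MvPolynomial (Fin n) ℂ)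
        (FractionRing (MvPolynomial (Fin n) ℂ)) (G i)) (FractionRing (MvPolynomial (Fin n) ℂ)) = 1

end

end Pool.Agent.Q35.UL
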