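import Mathlib
import Pool.Agent.Q35.PL.Cub
import Pool.Agent.Q35.UL.Stm

/-! # Project UL: expansion of a cubic form on a line -/

set_option autoImplicit false

namespace Pool.Agent.Q35.UL

open MvPolynomial Pool.Agent.TH314.PD Module Pool.Agent.Q35.PL

noncomputable section

variable {n d : ℕ} {F : MvPolynomial (Fin (n + 2)) ℂ} {M : Type} [Field M] [Algebra ℂ M]

lemma bin_one (x z : Fin (n + 2) → M) :
    (bin F x z).coeff 1 = ∑ i, z i * aeval x (pderiv i F) := by
  classical
  set Y : Fin (n + 2) → Polynomial M := fun j =>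
    Polynomial.C (x j) + Polynomial.X * Polynomial.C (z j) with hY
  have hD : ∑ i, aeval Y (pderiv i F) * Polynomial.C (z i) =
      Polynomial.derivative (bin F x z) := by
    have h1 := chain_rule ((Polynomial.derivative' : Derivation M (Polynomial M)
      (Polynomial M)).restrictScalars ℂ) Y F
    have h2 : ((Polynomial.derivative' : Derivation M (Polynomial M)
        (Polynomial M)).restrictScalars ℂ) (aeval Y F) =
        Polynomial.derivative (bin F x z) := rfl
    rw [← h2, h1]
    refine Finset.sum_congr rfl fun i _ => ?_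
    congr 1
    show _ = Polynomial.derivative (Y i)
    simp [hY]
  have h4 := congrArg (fun P => Polynomial.coeff P 0) hD
  simp only [Polynomial.finsetSum_coeff, Polynomial.coeff_mul_C, Polynomial.coeff_derivative] at h4
  have h5 : ∀ i, (aeval Y (pderiv i F)).coeff 0 = aeval x (pderiv i F) := fun i =>
    coeff_bin x z (pderiv i F)
  rw [Finset.sum_congr rfl fun i _ => by rw [h5 i, mul_comm]] at h4
  rw [h4]
  simp

/-- the restriction of a cubic form to a line -/
lemma bin_cub (hF : F.IsHomogeneous 3) (x z : Fin (n + 2) → M) :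
    bin F x z = Polynomial.C (aeval x F) +
      Polynomial.C (∑ i, z i * aeval x (pderiv i F)) * Polynomial.X +
      Polynomial.C (∑ i, x i * aeval z (pderiv i F)) * Polynomial.X ^ 2 +
      Polynomial.C (aeval z F) * Polynomial.X ^ 3 := by
  obtain ⟨hdeg, h3⟩ := bin_top hF x z
  have h2 := bin_sub hF (by norm_num) x z
  rw [show 3 - 1 = 2 from rfl] at h2
  have h1 := bin_one (F := F) x z
  have h0 := coeff_bin x z F
  ext j
  simp only [Polynomial.coeff_add, Polynomial.coeff_C_mul, Polynomial.coeff_C,
    Polynomial.coeff_X, Polynomial.coeff_X_pow]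
  rcases j with _ | _ | _ | _ | j
  · simpa using h0
  · simpa using h1
  · simpa using h2
  · simpa using h3
  · rw [Polynomial.coeff_eq_zero_of_natDegree_lt (by omega)]
    simp

lemma cub_exp (hF : F.IsHomogeneous 3) (x z : Fin (n + 2) → M) (s : M) :
    aeval (fun i => x i + s * z i) F = aeval x F + s * ∑ i, z i * aeval x (pderiv i F) +
      s ^ 2 * ∑ i, x i * aeval z (pderiv i F) + s ^ 3 * aeval z F := by
  have h1 := aeval_pt (Ω := M) x z s F
  have h2 : pt x z s = fun i => x i + s * z i := rfl
  rw [h2] at h1
  rw [h1, bin_cub hF]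
  simp only [map_add, map_mul, map_pow, Polynomial.aeval_C, Polynomial.aeval_X,
    Algebra.algebraMap_self, RingHom.id_apply]
  ring

/-- the translation of the parameter of a line -/
lemma bin_comp (x z : Fin (n + 2) → M) (t : M) :
    bin F (fun i => x i + t * z i) z = (bin F x z).comp (Polynomial.X + Polynomial.C t) := by
  have h1 := aeval_line (R := Polynomial M) x z (Polynomial.X + Polynomial.C t) F
  rw [← Polynomial.comp_eq_aeval] at h1
  rw [← h1]
  unfold bin
  congr 2
  funext i
  rw [Polynomial.algebraMap_eq, Polynomial.C_add, Polynomial.C_mul]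
  ring

end

end Pool.Agent.Q35.UL
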