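import Mathlib
import Pool.Agent.Q35.UL.Exp

/-! # Project UL: a conic through a point of a linear subspace -/

set_option autoImplicit false

namespace Pool.Agent.Q35.UL

open MvPolynomial Pool.Agent.TH314.PD Module Pool.Agent.Q35.PL

noncomputable section

variable {n : ℕ} {F : MvPolynomial (Fin (n + 2)) ℂ} {L M : Type} [Field L] [Field M]
  [Algebra ℂ L] [Algebra L M] [Algebra ℂ M] [IsScalarTower ℂ L M]

lemma aeval_map (z : Fin (n + 2) → L) (H : MvPolynomial (Fin (n + 2)) ℂ) :
    aeval (fun i => algebraMap L M (z i)) H = algebraMap L M (aeval z H) :=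
  aeval_algebraMap_apply _ _ _

/-- the restriction of the equation to the line joining the point `t² λ + t Q + C` of a conic with
the point `λ` at infinity -/
theorem conic_bin (hF : F.IsHomogeneous 3) {t : M} (ht : Transcendental L t)
    (lam Q Cc : Fin (n + 2) → L)
    (hx : aeval (fun i => algebraMap L M (Cc i) + t * algebraMap L M (Q i) +
      t ^ 2 * algebraMap L M (lam i)) F = 0) :
    ∃ b β γ : L, bin F (fun i => algebraMap L M (Cc i) + t * algebraMap L M (Q i) +
      t ^ 2 * algebraMap L M (lam i)) (fun i => algebraMap L M (lam i)) =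
      Polynomial.C (algebraMap L M b) * Polynomial.X ^ 2 +
      Polynomial.C (algebraMap L M b * t ^ 2 + algebraMap L M β * t + algebraMap L M γ) *
        Polynomial.X := by
  classical
  set y : Fin (n + 2) → M := fun i => algebraMap L M (Cc i) + t * algebraMap L M (Q i) with hy
  set l : Fin (n + 2) → M := fun i => algebraMap L M (lam i) with hl
  -- the coefficients
  let P0 : Polynomial L := bin F Cc Q
  let P1 : Polynomial L := ∑ i, Polynomial.C (lam i) * bin (pderiv i F) Cc Q
  let c0 : L := ∑ i, Cc i * aeval lam (pderiv i F)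
  let c1 : L := ∑ i, Q i * aeval lam (pderiv i F)
  let f3 : L := aeval lam F
  have hP0d : P0.natDegree ≤ 3 := (bin_top hF Cc Q).1
  have hP1d : P1.natDegree ≤ 2 := by
    refine Polynomial.natDegree_sum_le_of_forall_le _ _ fun i _ => ?_
    exact (Polynomial.natDegree_C_mul_le _ _).trans (bin_top (F := pderiv i F) hF.pderiv Cc Q).1
  have hyF : ∀ H : MvPolynomial (Fin (n + 2)) ℂ, aeval y H = Polynomial.aeval t (bin H Cc Q) :=
    fun H => aeval_pt (Ω := M) Cc Q t H
  have h0 : aeval y F = Polynomial.aeval t P0 := hyF F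
  have h1 : ∑ i, l i * aeval y (pderiv i F) = Polynomial.aeval t P1 := by
    rw [map_sum]
    refine Finset.sum_congr rfl fun i _ => ?_
    rw [hyF, map_mul, Polynomial.aeval_C]
  have hlam : ∀ H : MvPolynomial (Fin (n + 2)) ℂ, aeval l H = algebraMap L M (aeval lam H) :=
    fun H => aeval_map lam H
  have h2 : ∑ i, y i * aeval l (pderiv i F) = algebraMap L M c0 + t * algebraMap L M c1 := by
    simp only [c0, c1, map_sum, map_mul, Finset.mul_sum]
    rw [← Finset.sum_add_distrib]
    refine Finset.sum_congr rfl fun i _ => ?_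
    rw [hlam]
    simp only [hy]
    ring
  have h3 : aeval l F = algebraMap L M f3 := hlam F
  have hexp := cub_exp hF y l (t ^ 2)
  have hxy : (fun i => algebraMap L M (Cc i) + t * algebraMap L M (Q i) +
      t ^ 2 * algebraMap L M (lam i)) = fun i => y i + t ^ 2 * l i := rfl
  rw [hxy] at hx ⊢
  rw [hx, h0, h1, h2, h3] at hexp
  let R : Polynomial L := P0 + Polynomial.X ^ 2 * P1 + Polynomial.X ^ 4 * Polynomial.C c0 +
    Polynomial.X ^ 5 * Polynomial.C c1 + Polynomial.X ^ 6 * Polynomial.C f3
  have hR : R = 0 := by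
    apply (transcendental_iff.1 ht)
    simp only [R, map_add, map_mul, map_pow, Polynomial.aeval_C, Polynomial.aeval_X]
    linear_combination -hexp
  have hco : ∀ j, R.coeff j = 0 := fun j => by rw [hR, Polynomial.coeff_zero]
  have hX : ∀ (k j : ℕ) (P : Polynomial L), (Polynomial.X ^ k * P).coeff j =
      if k ≤ j then P.coeff (j - k) else 0 := fun k j P => Polynomial.coeff_X_pow_mul' P k j
  have hRc : ∀ j, R.coeff j = P0.coeff j + (if 2 ≤ j then P1.coeff (j - 2) else 0) +
      (if 4 ≤ j then (Polynomial.C c0).coeff (j - 4) else 0) +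
      (if 5 ≤ j then (Polynomial.C c1).coeff (j - 5) else 0) +
      (if 6 ≤ j then (Polynomial.C f3).coeff (j - 6) else 0) := by
    intro j
    simp only [R, Polynomial.coeff_add, hX]
  have hP0z : ∀ j, 3 < j → P0.coeff j = 0 := fun j hj =>
    Polynomial.coeff_eq_zero_of_natDegree_lt (by omega)
  have hP1z : ∀ j, 2 < j → P1.coeff j = 0 := fun j hj =>
    Polynomial.coeff_eq_zero_of_natDegree_lt (by omega)
  have e6 : f3 = 0 := by
    have := hco 6
    rw [hRc] at this
    simpa [Polynomial.coeff_C, hP0z 6 (by norm_num), hP1z 4 (by norm_num)] using this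
  have e5 : c1 = 0 := by
    have := hco 5
    rw [hRc] at this
    simpa [Polynomial.coeff_C, hP0z 5 (by norm_num), hP1z 3 (by norm_num)] using this
  have e4 : P1.coeff 2 + c0 = 0 := by
    have := hco 4
    rw [hRc] at this
    simpa [Polynomial.coeff_C, hP0z 4 (by norm_num)] using this
  have hP1 : Polynomial.aeval t P1 = algebraMap L M (P1.coeff 0) +
      algebraMap L M (P1.coeff 1) * t - algebraMap L M c0 * t ^ 2 := by
    have h4 : P1.coeff 2 = -c0 := eq_neg_of_add_eq_zero_left e4
    rw [Polynomial.aeval_eq_sum_range' (lt_of_le_of_lt hP1d (by norm_num : 2 < 3)),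
      Finset.sum_range_succ, Finset.sum_range_succ, Finset.sum_range_succ, Finset.sum_range_zero,
      h4]
    simp only [Algebra.smul_def, map_neg]
    ring
  refine ⟨c0, P1.coeff 1, P1.coeff 0, ?_⟩
  rw [bin_comp, bin_cub hF y l, h1, h2, h3, e5, e6, hP1]
  rw [e5, e6, hP1] at hexp
  simp only [map_zero, mul_zero, add_zero, zero_mul] at hexp ⊢
  simp only [Polynomial.add_comp, Polynomial.mul_comp, Polynomial.C_comp, Polynomial.X_comp,
    Polynomial.pow_comp]
  have h5 := congrArg (Polynomial.C : M → Polynomial M) hexp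
  rw [← h0] at h5
  simp only [map_add, map_mul, map_pow, map_zero, map_sub] at h5 ⊢
  linear_combination -h5

end

end Pool.Agent.Q35.UL
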