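import Mathlib
import Pool.Agent.Q35.UL.Conic

/-! # Project UL: the family of lines joining a conic with a point has odd degree -/

set_option autoImplicit false

namespace Pool.Agent.Q35.UL

open MvPolynomial Pool.Agent.TH314.PD Module Pool.Agent.Q35.PL

noncomputable section

variable {n k : ℕ} {F : MvPolynomial (Fin (n + 2)) ℂ}

/-- a form which vanishes on the complex points of a linear subspace -/
lemma van_span {e : Fin k → Fin (n + 2) → ℂ}
    (he : ∀ c : Fin k → ℂ, eval (fun i => ∑ a, c a * e a i) F = 0) {A : Type} [CommRing A]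
    [Algebra ℂ A] (μ : Fin k → A) :
    aeval (fun i => ∑ a, μ a * algebraMap ℂ A (e a i)) F = 0 := by
  let g : MvPolynomial (Fin k) ℂ := aeval (fun i => ∑ a, X a * C (e a i)) F
  have hg : g = 0 := by
    apply MvPolynomial.funext
    intro c
    rw [map_zero, ← he c, ← aeval_eq_eval, ← aeval_eq_eval]
    show (aeval c : MvPolynomial (Fin k) ℂ →ₐ[ℂ] ℂ) (aeval _ F) = _
    rw [Pool.Agent.Q35.PL.aeval_comp]
    congr 2
    funext i
    simp
  have h1 : aeval μ g = 0 := by rw [hg, map_zero]
  rw [← h1]
  show _ = aeval μ (aeval _ F)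
  rw [Pool.Agent.Q35.PL.aeval_comp]
  congr 2
  funext i
  simp

/-- a linear form which vanishes on the subspace -/
lemma exists_linear {e : Fin k → Fin (n + 2) → ℂ} (hF0 : F ≠ 0)
    (he : ∀ c : Fin k → ℂ, eval (fun i => ∑ a, c a * e a i) F = 0) :
    ∃ ℓ : Fin (n + 2) → ℂ, ℓ ≠ 0 ∧ ∀ a, ∑ i, ℓ i * e a i = 0 := by
  classical
  have hne : Submodule.span ℂ (Set.range e) < ⊤ := by
    rw [lt_top_iff_ne_top]
    intro htop
    apply hF0
    apply MvPolynomial.funext
    intro z
    have hz : z ∈ Submodule.span ℂ (Set.range e) := by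
      rw [htop]
      exact Submodule.mem_top
    rw [Submodule.mem_span_range_iff_exists_fun] at hz
    obtain ⟨c, hc⟩ := hz
    rw [map_zero, ← he c]
    congr 2
    rw [← hc]
    funext i
    rw [Finset.sum_apply]
    rfl
  obtain ⟨f, hf0, hf⟩ := Submodule.exists_le_ker_of_lt_top _ hne
  refine ⟨fun i => f (fun j => if i = j then 1 else 0), ?_, fun a => ?_⟩
  · intro h
    apply hf0
    refine LinearMap.ext fun z => ?_
    rw [LinearMap.pi_apply_eq_sum_univ f z, LinearMap.zero_apply]
    refine Finset.sum_eq_zero fun i _ => ?_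
    have h1 := congrFun h i
    rw [h1, Pi.zero_apply, smul_zero]
  · have h1 : f (e a) = 0 := hf (Submodule.subset_span ⟨a, rfl⟩)
    have h2 := LinearMap.pi_apply_eq_sum_univ f (e a)
    rw [h1] at h2
    refine Eq.trans ?_ h2.symm
    refine Finset.sum_congr rfl fun i _ => ?_
    rw [smul_eq_mul, mul_comm]

/-- points of a linear subspace of the hypersurface are not generic -/
lemma notgen {e : Fin k → Fin (n + 2) → ℂ} (hF : F.IsHomogeneous 3) (hF0 : F ≠ 0)
    (he : ∀ c : Fin k → ℂ, eval (fun i => ∑ a, c a * e a i) F = 0) {M : Type} [Field M]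
    [Algebra ℂ M] (μ : Fin k → M) :
    ¬ IsGen F fun i => ∑ a, μ a * algebraMap ℂ M (e a i) := by
  classical
  intro hgen
  obtain ⟨ℓ, hℓ, hℓe⟩ := exists_linear hF0 he
  let H : MvPolynomial (Fin (n + 2)) ℂ := ∑ i, C (ℓ i) * X i
  have hH : H.IsHomogeneous 1 := by
    refine IsHomogeneous.sum _ _ _ fun i _ => ?_
    have := (isHomogeneous_C (Fin (n + 2)) (ℓ i)).mul (isHomogeneous_X ℂ i)
    rwa [zero_add] at this
  have hH0 : H ≠ 0 := by
    intro h
    apply hℓ
    funext j
    have h1 := congrArg (coeff (Finsupp.single j 1)) h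
    simp only [H, coeff_sum, coeff_C_mul, coeff_X, coeff_zero] at h1
    rw [Finset.sum_eq_single j] at h1
    · simpa using h1
    · intro i _ hij
      rw [if_neg, mul_zero]
      intro h2
      exact hij (Finsupp.single_left_injective one_ne_zero h2)
    · intro h2
      exact absurd (Finset.mem_univ j) h2
  have h0 : aeval (fun i => ∑ a, μ a * algebraMap ℂ M (e a i)) H = 0 := by
    simp only [H, map_sum, map_mul, aeval_C, aeval_X]
    simp only [Finset.mul_sum]
    rw [Finset.sum_comm]
    refine Finset.sum_eq_zero fun a _ => ?_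
    have h1 : ∑ i, algebraMap ℂ M (ℓ i) * (μ a * algebraMap ℂ M (e a i)) =
        μ a * algebraMap ℂ M (∑ i, ℓ i * e a i) := by
      rw [map_sum, Finset.mul_sum]
      refine Finset.sum_congr rfl fun i _ => ?_
      rw [map_mul]
      ring
    rw [h1, hℓe, map_zero, mul_zero]
  have h2 := (hom_quot hF hH hH0 (hgen.2 1 H hH h0)).1
  omega

/-- the line joining the generic point of a conic with the point of the subspace: the family of
these lines has odd degree -/
theorem odd_line (hF : F.IsHomogeneous 3)
    (hsm : ∀ z : Fin (n + 2) → ℂ, (∀ i, eval z (pderiv i F) = 0) → z = 0)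
    {e : Fin k → Fin (n + 2) → ℂ}
    (he : ∀ c : Fin k → ℂ, eval (fun i => ∑ a, c a * e a i) F = 0)
    {M : Type} [Field M] [Algebra ℂ M] (L : IntermediateField ℂ M) {t : M}
    (ht : Transcendental L t) (Q Cc : Fin (n + 2) → L) (μ : Fin k → L)
    {lam x : Fin (n + 2) → M}
    (hlam : ∀ i, lam i = ∑ a, (μ a : M) * algebraMap ℂ M (e a i)) (hlam0 : lam ≠ 0)
    (hxe : ∀ i, x i = (Cc i : M) + t * (Q i : M) + t ^ 2 * lam i)
    (hx : IsGen F x) (hodd : Odd (finrank (ratioField x) M)) :
    LinearIndependent M ![x, lam] ∧ bin F x lam ≠ 0 ∧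
      Odd (finrank (ratioField (pt x lam (ss M))) (RF' M)) := by
  have hF0 : F ≠ 0 := ne_zero_of_smooth (m := n + 1) hsm
  have hfd : FiniteDimensional (ratioField x) M := .of_finrank_pos hodd.pos
  have hlameq : lam = fun i => ∑ a, (μ a : M) * algebraMap ℂ M (e a i) := funext hlam
  have hl : LinearIndependent M ![x, lam] := by
    rw [LinearIndependent.pair_iff]
    intro a b hab
    have ha : a = 0 := by
      by_contra ha
      apply notgen hF hF0 he (fun c => -(b / a) * (μ c : M))
      have h1 : (fun i => ∑ c, -(b / a) * (μ c : M) * algebraMap ℂ M (e c i)) = x := by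
        funext i
        have h2 := congrFun hab i
        simp only [Pi.add_apply, Pi.smul_apply, smul_eq_mul, Pi.zero_apply] at h2
        have h3 : x i = -(b / a) * lam i := by
          field_simp
          linear_combination h2
        rw [h3, hlam i, Finset.mul_sum]
        refine Finset.sum_congr rfl fun c _ => ?_
        ring
      rw [h1]
      exact hx
    refine ⟨ha, ?_⟩
    rw [ha, zero_smul, zero_add, smul_eq_zero] at hab
    exact hab.resolve_right hlam0
  -- the coordinates over the intermediate field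
  let lamL : Fin (n + 2) → L := fun i => ∑ a, μ a * algebraMap ℂ L (e a i)
  have hlamL : ∀ i, algebraMap L M (lamL i) = lam i := by
    intro i
    rw [hlam i]
    simp only [lamL, map_sum, map_mul]
    rfl
  have hxL : (fun i => algebraMap L M (Cc i) + t * algebraMap L M (Q i) +
      t ^ 2 * algebraMap L M (lamL i)) = x := by
    funext i
    rw [hlamL, hxe i]
    rfl
  obtain ⟨b, β, γ, hbin⟩ := conic_bin hF ht lamL Q Cc (by rw [hxL]; exact hx.1)
  rw [hxL, show (fun i => algebraMap L M (lamL i)) = lam from funext hlamL] at hbin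
  have hb0 : b ≠ 0 := by
    rintro rfl
    rw [map_zero, map_zero, zero_mul, zero_add, zero_mul, zero_add] at hbin
    have h1 := contact_other hF le_rfl hsm hx hl _ hbin
    rcases hodd with ⟨c, hc⟩
    omega
  have hbM : algebraMap L M b ≠ 0 := fun h => hb0 ((algebraMap L M).injective (by rw [h, map_zero]))
  set σ : M := -((algebraMap L M b * t ^ 2 + algebraMap L M β * t + algebraMap L M γ) /
    algebraMap L M b) with hσ
  have hbin' : bin F x lam = Polynomial.C (algebraMap L M b) *
      (Polynomial.X * (Polynomial.X - Polynomial.C σ)) := by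
    have h1 : algebraMap L M b * σ = -(algebraMap L M b * t ^ 2 + algebraMap L M β * t +
        algebraMap L M γ) := by
      rw [hσ]
      field_simp
    have h2 : Polynomial.C (algebraMap L M b) * Polynomial.C σ =
        -Polynomial.C (algebraMap L M b * t ^ 2 + algebraMap L M β * t + algebraMap L M γ) := by
      rw [← Polynomial.C_mul, h1, Polynomial.C_neg]
    rw [hbin]
    linear_combination Polynomial.X * h2
  have hbne : bin F x lam ≠ 0 := by
    rw [hbin']
    exact mul_ne_zero (Polynomial.C_ne_zero.2 hbM)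
      (mul_ne_zero Polynomial.X_ne_zero (Polynomial.X_sub_C_ne_zero _))
  refine ⟨hl, hbne, ?_⟩
  have hlaw := cubic_law hF hsm hx hfd hl hbM hbin'
  have h1 : dg F x = finrank (ratioField x) M := by
    unfold dg
    rw [if_pos hx]
  have h2 : dg F lam = 0 := by
    unfold dg
    rw [if_neg]
    rw [hlameq]
    exact notgen hF hF0 he _
  have h3 : 2 ∣ dg F (fun j => x j + σ * lam j) := by
    unfold dg
    split_ifs with hg
    · have h4 : (fun j => x j + σ * lam j) = fun j => t *
          ((Q j : M) - (β : M) / (b : M) * lam j) + ((Cc j : M) - (γ : M) / (b : M) * lam j) := by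
        funext j
        rw [hxe j, hσ]
        have hbM' : (b : M) ≠ 0 := hbM
        have h5 : algebraMap L M b = (b : M) := rfl
        have h6 : algebraMap L M β = (β : M) := rfl
        have h7 : algebraMap L M γ = (γ : M) := rfl
        rw [h5, h6, h7]
        field_simp
        ring
      have hlamm : ∀ j, lam j ∈ L := fun j => by
        rw [← hlamL j]
        exact (lamL j).2
      have hd := Pool.Agent.Y201.LI.linear_param (r := n + 1) hF (by norm_num) hsm L t ht
        (fun j => (Q j : M) - (β : M) / (b : M) * lam j)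
        (fun j => (Cc j : M) - (γ : M) / (b : M) * lam j)
        (fun j => sub_mem (Q j).2 (mul_mem (div_mem β.2 b.2) (hlamm j)))
        (fun j => sub_mem (Cc j).2 (mul_mem (div_mem γ.2 b.2) (hlamm j)))
        (by rw [← h4]; exact hg.1) (by rw [← h4]; exact hg.2)
      rw [h4]
      exact hd
    · exact dvd_zero _
  rw [h1, h2] at hlaw
  rcases hodd with ⟨c, hc⟩
  obtain ⟨m, hm⟩ := h3
  unfold Nat.ModEq at hlaw
  rw [Nat.odd_iff]
  omega

end

end Pool.Agent.Q35.UL
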