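import Mathlib
import Pool.Agent.Q35.UL.Odd
import Pool.Agent.Y201.VL.Lines

/-! # Project UL: from a point over an extension of odd degree to a rational section -/

set_option autoImplicit false

namespace Pool.Agent.Q35.UL

open MvPolynomial Pool.Agent.TH314.PD Module Pool.Agent.Q35.PL

noncomputable section

variable {n k : ℕ} {F : MvPolynomial (Fin (n + 2)) ℂ}

/-- A homogeneous polynomial of degree two is given by a matrix. -/
theorem exists_matrix' {ι R : Type} [Fintype ι] [CommRing R] (f : MvPolynomial ι R)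
    (hf : f.IsHomogeneous 2) :
    ∃ M : ι → ι → R, f = ∑ i, ∑ j, MvPolynomial.C (M i j) * MvPolynomial.X i * MvPolynomial.X j := by
  classical
  have h1 : f ∈ MvPolynomial.homogeneousSubmodule ι R 2 := hf
  rw [← MvPolynomial.homogeneousSubmodule_one_pow, MvPolynomial.homogeneousSubmodule_one_eq_span_X,
    pow_two, Submodule.span_mul_span] at h1
  clear hf
  induction h1 using Submodule.span_induction with
  | mem x hx =>
    obtain ⟨a, ⟨i, rfl⟩, b, ⟨j, rfl⟩, rfl⟩ := hx
    refine ⟨fun i' j' => if i' = i ∧ j' = j then 1 else 0, ?_⟩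
    rw [Finset.sum_eq_single i, Finset.sum_eq_single j]
    · simp
    · intro b _ hb
      simp [hb]
    · intro h
      exact absurd (Finset.mem_univ _) h
    · intro b _ hb
      simp [hb]
    · intro h
      exact absurd (Finset.mem_univ _) h
  | zero => exact ⟨fun _ _ => 0, by simp⟩
  | add x y _ _ hx hy =>
    obtain ⟨M, hM⟩ := hx
    obtain ⟨N, hN⟩ := hy
    refine ⟨fun i j => M i j + N i j, ?_⟩
    rw [hM, hN, ← Finset.sum_add_distrib]
    refine Finset.sum_congr rfl fun i _ => ?_
    rw [← Finset.sum_add_distrib]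
    refine Finset.sum_congr rfl fun j _ => ?_
    rw [map_add]
    ring
  | smul a x _ hx =>
    obtain ⟨M, hM⟩ := hx
    refine ⟨fun i j => a * M i j, ?_⟩
    rw [hM, MvPolynomial.smul_eq_C_mul, Finset.mul_sum]
    refine Finset.sum_congr rfl fun i _ => ?_
    rw [Finset.mul_sum]
    refine Finset.sum_congr rfl fun j _ => ?_
    rw [map_mul]
    ring

section

variable {R : Type} [CommRing R] [Algebra ℂ R]

/-- the general vector of the subspace, with indeterminate coefficients -/
def uu (R : Type) [CommRing R] [Algebra ℂ R] (e : Fin k → Fin (n + 2) → ℂ) (i : Fin (n + 2)) :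
    MvPolynomial (Fin (k + 1)) R := ∑ a : Fin k, X a.succ * C (algebraMap ℂ R (e a i))

/-- the quadric of the space spanned by `P` and the subspace; the first variable is the coefficient
of `P` -/
def qf (F : MvPolynomial (Fin (n + 2)) ℂ) (e : Fin k → Fin (n + 2) → ℂ) (P : Fin (n + 2) → R) :
    MvPolynomial (Fin (k + 1)) R :=
  ∑ i, C (P i) * aeval (uu R e) (pderiv i F) +
    X 0 * ∑ i, uu R e i * C (aeval P (pderiv i F)) + X 0 ^ 2 * C (aeval P F)

lemma uu_hom (e : Fin k → Fin (n + 2) → ℂ) (i : Fin (n + 2)) : (uu R e i).IsHomogeneous 1 := by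
  refine IsHomogeneous.sum _ _ _ fun a _ => ?_
  have := (isHomogeneous_X R a.succ).mul (isHomogeneous_C (Fin (k + 1)) (algebraMap ℂ R (e a i)))
  rwa [add_zero] at this

/-- composition of forms over an extension ring -/
lemma hom_aeval {σ τ : Type} {G : MvPolynomial τ ℂ} {m d : ℕ} (hG : G.IsHomogeneous m)
    (v : τ → MvPolynomial σ R) (hv : ∀ i, (v i).IsHomogeneous d) :
    (aeval v G).IsHomogeneous (d * m) := by
  rw [aeval_def, eval₂_eq]
  refine IsHomogeneous.sum _ _ _ fun s hs => ?_
  have h1 : (∏ i ∈ s.support, v i ^ s i).IsHomogeneous (∑ i ∈ s.support, d * s i) :=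
    IsHomogeneous.prod _ _ _ fun i _ => (hv i).pow (s i)
  have h2 : ∑ i ∈ s.support, s i = m := by
    have h3 := hG (mem_support_iff.1 hs)
    rw [← h3, Finsupp.weight_apply, Finsupp.sum]
    simp
  rw [← Finset.mul_sum, h2] at h1
  have h4 := (isHomogeneous_C σ (algebraMap ℂ R (coeff s G))).mul h1
  rw [zero_add] at h4
  exact h4

lemma qf_hom (hF : F.IsHomogeneous 3) (e : Fin k → Fin (n + 2) → ℂ) (P : Fin (n + 2) → R) :
    (qf F e P).IsHomogeneous 2 := by
  unfold qf
  refine (IsHomogeneous.add ?_ ?_).add ?_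
  · refine IsHomogeneous.sum _ _ _ fun i _ => ?_
    have h1 := hom_aeval (R := R) (d := 1) (hF.pderiv (i := i)) (uu R e) (uu_hom e)
    have h2 := (isHomogeneous_C (Fin (k + 1)) (P i)).mul h1
    simpa using h2
  · have h1 : (∑ i, uu R e i * C (aeval P (pderiv i F))).IsHomogeneous 1 := by
      refine IsHomogeneous.sum _ _ _ fun i _ => ?_
      have := (uu_hom (R := R) e i).mul (isHomogeneous_C (Fin (k + 1)) (aeval P (pderiv i F)))
      rwa [add_zero] at this
    exact (isHomogeneous_X R 0).mul h1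
  · have := ((isHomogeneous_X R (0 : Fin (k + 1))).pow 2).mul
      (isHomogeneous_C (Fin (k + 1)) (aeval P F))
    simpa using this

/-- values of the quadric -/
lemma qf_eval {K : Type} [Field K] [Algebra ℂ K] [Algebra R K] [IsScalarTower ℂ R K]
    (e : Fin k → Fin (n + 2) → ℂ) (P : Fin (n + 2) → R) (w : Fin (k + 1) → K) :
    aeval w (qf F e P) =
      ∑ i, algebraMap R K (P i) *
        aeval (fun i => ∑ a : Fin k, w a.succ * algebraMap ℂ K (e a i)) (pderiv i F) +
      w 0 * ∑ i, (∑ a : Fin k, w a.succ * algebraMap ℂ K (e a i)) *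
        aeval (fun i => algebraMap R K (P i)) (pderiv i F) +
      w 0 ^ 2 * aeval (fun i => algebraMap R K (P i)) F := by
  have h1 : ∀ i, aeval w (uu R e i) = ∑ a : Fin k, w a.succ * algebraMap ℂ K (e a i) := by
    intro i
    simp only [uu, map_sum, map_mul, aeval_X, aeval_C]
    refine Finset.sum_congr rfl fun a _ => ?_
    rw [← IsScalarTower.algebraMap_apply]
  have h2 : ∀ H : MvPolynomial (Fin (n + 2)) ℂ, aeval w (aeval (uu R e) H) =
      aeval (fun i => ∑ a : Fin k, w a.succ * algebraMap ℂ K (e a i)) H := by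
    intro H
    have h3 : ((aeval w : MvPolynomial (Fin (k + 1)) R →ₐ[R] K).restrictScalars ℂ).comp
        (aeval (uu R e)) =
        aeval (fun i => ∑ a : Fin k, w a.succ * algebraMap ℂ K (e a i)) := by
      apply algHom_ext
      intro i
      rw [AlgHom.comp_apply, aeval_X, aeval_X, AlgHom.restrictScalars_apply, h1]
    rw [← h3]
    rfl
  have h4 : ∀ H : MvPolynomial (Fin (n + 2)) ℂ, algebraMap R K (aeval P H) =
      aeval (fun i => algebraMap R K (P i)) H := fun H => (aeval_algebraMap_apply _ _ _).symm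
  unfold qf
  simp only [map_add, map_sum, map_mul, map_pow, aeval_C, aeval_X, h1, h2, h4]

end

/-- an affine section gives a section -/
theorem section_of_affine (hF : F.IsHomogeneous 3) (e : Fin k → Fin (n + 2) → ℂ)
    (r : MvPolynomial (Fin (n + 1)) ℂ) (c : Fin k → MvPolynomial (Fin (n + 1)) ℂ) (hr : r ≠ 0)
    (h : aeval (fun i => r * (Fin.cons 1 X : Fin (n + 2) → MvPolynomial (Fin (n + 1)) ℂ) i +
      ∑ a, c a * C (e a i)) F = 0) : Section F e := by
  classical
  obtain ⟨r', hr1, hr2⟩ := homogenize r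
  choose c' hc1 hc2 using fun a => homogenize (c a)
  let D : ℕ := r.totalDegree + ∑ a, (c a).totalDegree
  have hDr : r.totalDegree ≤ D := Nat.le_add_right _ _
  have hDc : ∀ a, (c a).totalDegree ≤ D + 1 := by
    intro a
    have := Finset.single_le_sum (f := fun a => (c a).totalDegree) (fun _ _ => Nat.zero_le _)
      (Finset.mem_univ a)
    simp only [D]
    omega
  let r₁ : MvPolynomial (Fin (n + 2)) ℂ := X 0 ^ (D - r.totalDegree) * r'
  let c₁ : Fin k → MvPolynomial (Fin (n + 2)) ℂ := fun a =>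
    X 0 ^ (D + 1 - (c a).totalDegree) * c' a
  have hr₁ : r₁.IsHomogeneous D := by
    have := ((isHomogeneous_X ℂ (0 : Fin (n + 2))).pow (D - r.totalDegree)).mul hr1
    rwa [show 1 * (D - r.totalDegree) + r.totalDegree = D by omega] at this
  have hc₁ : ∀ a, (c₁ a).IsHomogeneous (D + 1) := by
    intro a
    have := ((isHomogeneous_X ℂ (0 : Fin (n + 2))).pow (D + 1 - (c a).totalDegree)).mul (hc1 a)
    have h2 := hDc a
    rwa [show 1 * (D + 1 - (c a).totalDegree) + (c a).totalDegree = D + 1 by omega] at this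
  have hv : ∀ i, (r₁ * X i + ∑ a, c₁ a * C (e a i) : MvPolynomial (Fin (n + 2)) ℂ).IsHomogeneous
      (D + 1) := by
    intro i
    refine (hr₁.mul (isHomogeneous_X ℂ i)).add (IsHomogeneous.sum _ _ _ fun a _ => ?_)
    have := (hc₁ a).mul (isHomogeneous_C (Fin (n + 2)) (e a i))
    rwa [add_zero] at this
  have hdr : aeval (Fin.cons 1 X : Fin (n + 2) → MvPolynomial (Fin (n + 1)) ℂ) r₁ = r := by
    simp only [r₁, map_mul, map_pow, aeval_X, Fin.cons_zero, one_pow, one_mul]
    rw [hr2, aeval_X_left_apply]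
  have hdc : ∀ a, aeval (Fin.cons 1 X : Fin (n + 2) → MvPolynomial (Fin (n + 1)) ℂ) (c₁ a) =
      c a := by
    intro a
    simp only [c₁, map_mul, map_pow, aeval_X, Fin.cons_zero, one_pow, one_mul]
    rw [hc2, aeval_X_left_apply]
  refine ⟨r₁, c₁, ?_, ?_⟩
  · intro h0
    apply hr
    rw [← hdr, h0, map_zero]
  · refine Pool.Agent.Y201.C3.generic_zero _ (hom_aeval (R := ℂ) hF _ hv) ?_
    rw [Pool.Agent.Q35.PL.aeval_comp, ← h]
    congr 2
    funext i
    simp only [map_add, map_mul, map_sum, aeval_X, hdr, hdc, aeval_C]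
    rfl

/-- a point over an extension of odd degree of the field of the generic point of the space, in the
space spanned by the generic point and the subspace, gives a section -/
theorem section_of_point (hF : F.IsHomogeneous 3)
    (hsm : ∀ z : Fin (n + 2) → ℂ, (∀ i, eval z (pderiv i F) = 0) → z = 0)
    {e : Fin k → Fin (n + 2) → ℂ} (hel : LinearIndependent ℂ e)
    (he : ∀ c : Fin k → ℂ, eval (fun i => ∑ a, c a * e a i) F = 0)
    {Ω : Type} [Field Ω] [Algebra ℂ Ω] {p : Fin (n + 2) → Ω} (h0 : p 0 ≠ 0)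
    (hp : ∀ (e : ℕ) (H : MvPolynomial (Fin (n + 2)) ℂ), H.IsHomogeneous e →
      aeval p H = 0 → H = 0) (hodd : Odd (finrank (ratioField p) Ω))
    {r₀ : Ω} (hr₀ : r₀ ≠ 0) (c₀ : Fin k → Ω)
    (hpt : aeval (fun i => r₀ * p i + ∑ a, c₀ a * algebraMap ℂ Ω (e a i)) F = 0) :
    Section F e := by
  classical
  let R := MvPolynomial (Fin (n + 1)) ℂ
  let ψ : R →ₐ[ℂ] Ω := aeval (aff p)
  let _ : Algebra R Ω := ψ.toRingHom.toAlgebra
  have hst : IsScalarTower ℂ R Ω := IsScalarTower.of_algebraMap_eq fun c => (ψ.commutes c).symm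
  have hψ : ∀ g : R, algebraMap R Ω g = ψ g := fun g => rfl
  have hind := inj_aff h0 hp
  have hinj : ∀ g : R, ψ g = 0 → g = 0 := fun g hg => algebraicIndependent_iff.1 hind g hg
  let P : Fin (n + 2) → R := Fin.cons 1 X
  have hP : ∀ i, ψ (P i) = p i / p 0 := by
    intro i
    refine Fin.cases ?_ (fun j => ?_) i
    · simp only [P, Fin.cons_zero, map_one]
      rw [div_self h0]
    · simp only [P, Fin.cons_succ]
      show aeval (aff p) (X j) = _
      rw [aeval_X]
      rfl
  -- the cubic form on the space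
  have hcub : ∀ w : Fin (k + 1) → Ω,
      aeval (fun i => w 0 * (p i / p 0) + ∑ a : Fin k, w a.succ * algebraMap ℂ Ω (e a i)) F =
        w 0 * aeval w (qf F e P) := by
    intro w
    rw [qf_eval]
    have h1 := cub_exp hF (fun i => ∑ a : Fin k, w a.succ * algebraMap ℂ Ω (e a i))
      (fun i => p i / p 0) (w 0)
    have h2 : (fun i => algebraMap R Ω (P i)) = fun i => p i / p 0 := funext hP
    have h3 : (fun i => w 0 * (p i / p 0) + ∑ a : Fin k, w a.succ * algebraMap ℂ Ω (e a i)) =
        fun i => (∑ a : Fin k, w a.succ * algebraMap ℂ Ω (e a i)) + w 0 * (p i / p 0) := by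
      funext i
      ring
    rw [h3, h1, van_span he, h2]
    simp only [hψ, hP]
    ring
  obtain ⟨A, hA⟩ := exists_matrix' (qf F e P) (qf_hom hF e P)
  have hAe : ∀ w : Fin (k + 1) → Ω,
      aeval w (qf F e P) = ∑ i, ∑ j, ψ (A i j) * w i * w j := by
    intro w
    rw [hA]
    simp only [map_sum, map_mul, aeval_C, aeval_X]
    rfl
  -- the field
  have hfield : IntermediateField.adjoin ℂ (Set.range ψ) = ratioField p := by
    rw [ratio_mem_aff p h0]
    apply le_antisymm
    · rw [IntermediateField.adjoin_le_iff]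
      rintro _ ⟨g, rfl⟩
      rw [SetLike.mem_coe, IntermediateField.mem_adjoin_range_iff]
      exact ⟨g, 1, by rw [map_one, div_one]⟩
    · rw [IntermediateField.adjoin_le_iff]
      rintro _ ⟨j, rfl⟩
      refine IntermediateField.subset_adjoin _ _ ⟨X j, ?_⟩
      show aeval (aff p) (X j) = _
      rw [aeval_X]
  let w₀ : Fin (k + 1) → Ω := Fin.cons (r₀ * p 0) c₀
  have hw00 : w₀ 0 ≠ 0 := by
    simp only [w₀, Fin.cons_zero]
    exact mul_ne_zero hr₀ h0
  have hz0 : aeval w₀ (qf F e P) = 0 := by
    have h1 := hcub w₀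
    have h2 : (fun i => w₀ 0 * (p i / p 0) +
        ∑ a : Fin k, w₀ a.succ * algebraMap ℂ Ω (e a i)) =
        fun i => r₀ * p i + ∑ a, c₀ a * algebraMap ℂ Ω (e a i) := by
      funext i
      simp only [w₀, Fin.cons_zero, Fin.cons_succ]
      rw [mul_assoc, mul_div_cancel₀ _ h0]
    rw [h2, hpt] at h1
    exact (mul_eq_zero.1 h1.symm).resolve_left hw00
  obtain ⟨w, ⟨i₀, hi₀⟩, hw⟩ := Pool.Agent.Y201.VL.odd_descent ψ (by rw [hfield]; exact hodd) A w₀
    ⟨0, hw00⟩ (by rw [← hAe, hz0])
  have hw' : aeval (fun i => ψ (w i)) (qf F e P) = 0 := by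
    rw [hAe, ← hw]
    simp only [map_sum, map_mul]
  have hr : w 0 ≠ 0 := by
    intro hw0
    let y : Fin (n + 2) → Ω := fun i => ∑ a : Fin k, ψ (w a.succ) * algebraMap ℂ Ω (e a i)
    have hy : y ≠ 0 := by
      intro hy0
      -- a left inverse
      let f : (Fin k → ℂ) →ₗ[ℂ] (Fin (n + 2) → ℂ) := Fintype.linearCombination ℂ e
      have hf : LinearMap.ker f = ⊥ := LinearMap.ker_eq_bot.2
        hel.fintypeLinearCombination_injective
      obtain ⟨g, hg⟩ := LinearMap.exists_leftInverse_of_injective f hf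
      have hge : ∀ a b, ∑ i, e a i * g (fun j => if i = j then 1 else 0) b =
          if a = b then 1 else 0 := by
        intro a b
        have h1 : g (e a) = Pi.single a 1 := by
          have h2 : f (Pi.single a 1) = e a := by
            simp only [f, Fintype.linearCombination_apply_single, one_smul]
          rw [← h2]
          exact LinearMap.congr_fun hg _
        have h3 := LinearMap.pi_apply_eq_sum_univ g (e a)
        rw [h1] at h3
        have h4 := congrFun h3 b
        simp only [Finset.sum_apply, Pi.smul_apply, smul_eq_mul] at h4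
        rw [← h4, Pi.single_apply]
        simp only [eq_comm]
      have hall : ∀ b : Fin k, ψ (w b.succ) = 0 := by
        intro b
        have h1 : ∑ i, y i * algebraMap ℂ Ω (g (fun j => if i = j then 1 else 0) b) =
            ψ (w b.succ) := by
          simp only [y, Finset.sum_mul]
          rw [Finset.sum_comm]
          have h2 : ∀ a, ∑ i, ψ (w a.succ) * algebraMap ℂ Ω (e a i) *
              algebraMap ℂ Ω (g (fun j => if i = j then 1 else 0) b) =
              ψ (w a.succ) * algebraMap ℂ Ω (if a = b then 1 else 0) := by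
            intro a
            rw [← hge a b, map_sum, Finset.mul_sum]
            refine Finset.sum_congr rfl fun i _ => ?_
            rw [map_mul]
            ring
          rw [Finset.sum_congr rfl fun a _ => h2 a, Finset.sum_eq_single b]
          · rw [if_pos rfl, map_one, mul_one]
          · intro a _ hab
            rw [if_neg hab, map_zero, mul_zero]
          · intro h
            exact absurd (Finset.mem_univ _) h
        rw [← h1, hy0]
        simp
      apply hi₀
      refine Fin.cases ?_ (fun b => ?_) i₀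
      · rw [hw0, map_zero]
      · exact hall b
    have h1 : ∑ i, p i * aeval y (pderiv i F) = 0 := by
      rw [qf_eval] at hw'
      have h2 : ψ (w 0) = 0 := by rw [hw0, map_zero]
      rw [h2] at hw'
      simp only [zero_mul, add_zero, ne_eq, OfNat.ofNat_ne_zero, not_false_eq_true, zero_pow,
        hψ, hP] at hw'
      have h3 : ∀ i, p i * aeval y (pderiv i F) = p 0 * (p i / p 0 * aeval y (pderiv i F)) := by
        intro i
        rw [← mul_assoc, mul_div_cancel₀ _ h0]
      rw [Finset.sum_congr rfl fun i _ => h3 i, ← Finset.mul_sum, hw', mul_zero]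
    have h2 := one_pt hF hsm h0 hp (.of_finrank_pos hodd.pos) hy h1
    rcases hodd with ⟨c, hc⟩
    omega
  refine section_of_affine hF e (w 0) (fun a => w a.succ) hr ?_
  apply hinj
  have h1 := hcub fun i => ψ (w i)
  rw [hw', mul_zero] at h1
  rw [← h1]
  show ψ (aeval _ F) = _
  have h2 : ∀ (v : Fin (n + 2) → R) (H : MvPolynomial (Fin (n + 2)) ℂ),
      ψ (aeval v H) = aeval (fun i => ψ (v i)) H := by
    intro v H
    have h3 : ψ.comp (aeval v) = (aeval (fun i => ψ (v i)) : MvPolynomial (Fin (n + 2)) ℂ →ₐ[ℂ] Ω) := by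
      apply algHom_ext
      intro i
      rw [AlgHom.comp_apply, aeval_X, aeval_X]
    rw [← h3]
    rfl
  rw [h2]
  congr 2
  funext i
  rw [map_add, map_mul, map_sum]
  have h3 : ψ ((Fin.cons 1 X : Fin (n + 2) → MvPolynomial (Fin (n + 1)) ℂ) i) = p i / p 0 := hP i
  rw [h3]
  congr 1
  refine Finset.sum_congr rfl fun a _ => ?_
  rw [map_mul]
  congr 1
  exact ψ.commutes (e a i)

/-- the generic point of the line joining `x` with a point of the subspace -/
theorem section_aux (hF : F.IsHomogeneous 3)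
    (hsm : ∀ z : Fin (n + 2) → ℂ, (∀ i, eval z (pderiv i F) = 0) → z = 0)
    {e : Fin k → Fin (n + 2) → ℂ} (hel : LinearIndependent ℂ e)
    (he : ∀ c : Fin k → ℂ, eval (fun i => ∑ a, c a * e a i) F = 0)
    {M Ω : Type} [Field M] [Field Ω] [Algebra ℂ M] [Algebra M Ω] [Algebra ℂ Ω]
    [IsScalarTower ℂ M Ω] {s : Ω} (hs : Transcendental M s) (μ : Fin k → M)
    {lam x : Fin (n + 2) → M}
    (hlam : ∀ i, lam i = ∑ a, μ a * algebraMap ℂ M (e a i))
    (hx : IsGen F x) (hb : bin F x lam ≠ 0)
    (hodd : Odd (finrank (ratioField (pt x lam s)) Ω)) : Section F e := by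
  have hF0 : F ≠ 0 := ne_zero_of_smooth (m := n + 1) hsm
  have h0 : pt x lam s 0 ≠ 0 := pt_ne hs (coord_ne hF (by norm_num) hx hF0 0)
  refine section_of_point hF hsm hel he h0 (gen_pt hs hF (by norm_num) hx hb) hodd
    (r₀ := 1) one_ne_zero (fun a => -(s * algebraMap M Ω (μ a))) ?_
  have h1 : (fun i => 1 * pt x lam s i + ∑ a, -(s * algebraMap M Ω (μ a)) *
      algebraMap ℂ Ω (e a i)) = fun i => algebraMap M Ω (x i) := by
    funext i
    have h2 : ∑ a, -(s * algebraMap M Ω (μ a)) * algebraMap ℂ Ω (e a i) =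
        -(s * algebraMap M Ω (lam i)) := by
      rw [hlam i, map_sum, Finset.mul_sum, ← Finset.sum_neg_distrib]
      refine Finset.sum_congr rfl fun a _ => ?_
      rw [map_mul, ← IsScalarTower.algebraMap_apply ℂ M Ω]
      ring
    rw [h2]
    simp only [pt]
    ring
  rw [h1]
  have h2 : aeval (fun i => algebraMap M Ω (x i)) F = algebraMap M Ω (aeval x F) :=
    aeval_algebraMap_apply _ _ _
  rw [h2, hx.1, map_zero]

/-- a parametrization of odd degree by conics which meet a linear subspace -/
theorem conic_section (hF : F.IsHomogeneous 3)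
    (hsm : ∀ z : Fin (n + 2) → ℂ, (∀ i, eval z (pderiv i F) = 0) → z = 0)
    {e : Fin k → Fin (n + 2) → ℂ} (hel : LinearIndependent ℂ e)
    (he : ∀ c : Fin k → ℂ, eval (fun i => ∑ a, c a * e a i) F = 0)
    {M : Type} [Field M] [Algebra ℂ M] (L : IntermediateField ℂ M) {t : M}
    (ht : Transcendental L t) (Q Cc : Fin (n + 2) → L) (μ : Fin k → L)
    {lam x : Fin (n + 2) → M}
    (hlam : ∀ i, lam i = ∑ a, (μ a : M) * algebraMap ℂ M (e a i)) (hlam0 : lam ≠ 0)
    (hxe : ∀ i, x i = (Cc i : M) + t * (Q i : M) + t ^ 2 * lam i)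
    (hx : IsGen F x) (hodd : Odd (finrank (ratioField x) M)) : Section F e := by
  have h := odd_line hF hsm he L ht Q Cc μ hlam hlam0 hxe hx hodd
  have h1 := h.2.1
  have h2 := h.2.2
  have h3 := section_aux (Ω := RF' M) (s := ss M) hF hsm hel he ss_trans
    (fun a => (μ a : M)) hlam hx h1
  exact h3 h2

end

end Pool.Agent.Q35.UL
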