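import Mathlib
import Pool.Agent.Q35.UL.Sec

/-! # Project UL: the linear subspace is not a point -/

set_option autoImplicit false

namespace Pool.Agent.Q35.UL

open MvPolynomial Pool.Agent.TH314.PD Module Pool.Agent.Q35.PL

noncomputable section

variable {n k : ℕ} {F : MvPolynomial (Fin (n + 2)) ℂ}

/-- the expansion of the equation on the line through a complex point, in the ring of polynomials -/
lemma exp_ring (hF : F.IsHomogeneous 3) (u : Fin (n + 2) → ℂ)
    (r c : MvPolynomial (Fin (n + 2)) ℂ) :
    aeval (fun i => r * X i + c * C (u i)) F = r ^ 3 * F +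
      r ^ 2 * c * (∑ i, C (u i) * pderiv i F) +
      r * c ^ 2 * (∑ i, X i * C (eval u (pderiv i F))) + c ^ 3 * C (eval u F) := by
  let K := FractionRing (MvPolynomial (Fin (n + 2)) ℂ)
  let al : MvPolynomial (Fin (n + 2)) ℂ →ₐ[ℂ] K := IsScalarTower.toAlgHom ℂ _ K
  have hal : Function.Injective al :=
    IsFractionRing.injective (MvPolynomial (Fin (n + 2)) ℂ) K
  apply hal
  have hcomp : ∀ (v : Fin (n + 2) → MvPolynomial (Fin (n + 2)) ℂ)
      (H : MvPolynomial (Fin (n + 2)) ℂ), al (aeval v H) = aeval (fun i => al (v i)) H := by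
    intro v H
    have h3 : al.comp (aeval v) = (aeval (fun i => al (v i)) :
        MvPolynomial (Fin (n + 2)) ℂ →ₐ[ℂ] K) := by
      apply algHom_ext
      intro i
      rw [AlgHom.comp_apply, aeval_X, aeval_X]
    rw [← h3]
    rfl
  have hX : ∀ H : MvPolynomial (Fin (n + 2)) ℂ, aeval (fun i => al (X i)) H = al H := by
    intro H
    rw [← hcomp, aeval_X_left_apply]
  have hu : ∀ H : MvPolynomial (Fin (n + 2)) ℂ, aeval (fun i => al (C (u i))) H =
      al (C (eval u H)) := by
    intro H
    rw [← hcomp]
    have h1 : aeval (fun i => (C (u i) : MvPolynomial (Fin (n + 2)) ℂ)) H = C (eval u H) := by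
      have h2 := aeval_algebraMap_apply (MvPolynomial (Fin (n + 2)) ℂ) u H
      rw [aeval_eq_eval] at h2
      exact h2
    rw [h1]
  rw [hcomp]
  by_cases hr : r = 0
  · subst hr
    have h1 : (fun i => al (0 * X i + c * C (u i))) = fun i => al c * al (C (u i)) := by
      funext i
      rw [zero_mul, zero_add, map_mul]
    rw [h1, aeval_smul_form hF, hu]
    simp
  · have hr' : al r ≠ 0 := fun h => hr (hal (by rw [h, map_zero]))
    obtain ⟨w, hw⟩ : ∃ w : K, al c = al r * w := ⟨al c / al r, (mul_div_cancel₀ _ hr').symm⟩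
    have h1 : (fun i => al (r * X i + c * C (u i))) =
        fun i => al r * (al (X i) + w * al (C (u i))) := by
      funext i
      rw [map_add, map_mul, map_mul, hw]
      ring
    rw [h1, aeval_smul_form hF, cub_exp hF, hX, hu]
    simp only [hX, hu]
    simp only [map_add, map_mul, map_pow, map_sum, hw]
    ring

/-- the quadric bundle of a point has no rational section, and the subspace is not empty -/
theorem two_le (hF : F.IsHomogeneous 3)
    (hsm : ∀ z : Fin (n + 2) → ℂ, (∀ i, eval z (pderiv i F) = 0) → z = 0)
    (hirr : Irreducible F)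
    {e : Fin k → Fin (n + 2) → ℂ} (hel : LinearIndependent ℂ e)
    (he : ∀ c : Fin k → ℂ, eval (fun i => ∑ a, c a * e a i) F = 0) (hsec : Section F e) :
    2 ≤ k := by
  classical
  obtain ⟨r, c, hr, h⟩ := hsec
  have hF0 : F ≠ 0 := hirr.ne_zero
  rcases k with _ | _ | k
  · exfalso
    have h1 : (fun i => r * X i + ∑ a : Fin 0, c a * C (e a i)) = fun i => r * X i := by
      funext i
      rw [Finset.univ_eq_empty, Finset.sum_empty, add_zero]
    rw [h1, aeval_smul_form hF, aeval_X_left_apply] at h
    exact mul_ne_zero (pow_ne_zero 3 hr) hF0 h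
  · exfalso
    have h1 : (fun i => r * X i + ∑ a : Fin 1, c a * C (e a i)) =
        fun i => r * X i + c 0 * C (e 0 i) := by
      funext i
      rw [Fin.sum_univ_one]
    have hu0 : e 0 ≠ 0 := hel.ne_zero 0
    have hFu : eval (e 0) F = 0 := by
      have h2 := he fun _ => 1
      have h3 : (fun i => ∑ a : Fin 1, (1 : ℂ) * e a i) = e 0 := by
        funext i
        rw [Fin.sum_univ_one, one_mul]
      rwa [h3] at h2
    rw [h1] at h
    set A : MvPolynomial (Fin (n + 2)) ℂ := ∑ i, C (e 0 i) * pderiv i F with hA
    set B : MvPolynomial (Fin (n + 2)) ℂ := ∑ i, X i * C (eval (e 0) (pderiv i F)) with hB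
    -- reduced fraction
    obtain ⟨a, b, q, hab, hac, hbr⟩ :=
      UniqueFactorizationMonoid.exists_reduced_factors' (c 0) r hr
    have hq0 : q ≠ 0 := by
      rintro rfl
      rw [zero_mul] at hbr
      exact hr hbr.symm
    have hb0 : b ≠ 0 := by
      rintro rfl
      rw [mul_zero] at hbr
      exact hr hbr.symm
    have h2 : aeval (fun i => b * X i + a * C (e 0 i)) F = 0 := by
      have h3 : (fun i => r * X i + c 0 * C (e 0 i)) =
          fun i => q * (b * X i + a * C (e 0 i)) := by
        funext i
        rw [← hac, ← hbr]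
        ring
      rw [h3, aeval_smul_form hF] at h
      exact (mul_eq_zero.1 h).resolve_left (pow_ne_zero 3 hq0)
    rw [exp_ring hF, hFu, C_0, mul_zero, add_zero, ← hA, ← hB] at h2
    have h3 : b ^ 2 * F + b * a * A + a ^ 2 * B = 0 := by
      have h4 : b * (b ^ 2 * F + b * a * A + a ^ 2 * B) = 0 := by
        rw [← h2]
        ring
      exact (mul_eq_zero.1 h4).resolve_left hb0
    have hB0 : B ≠ 0 := by
      intro h4
      apply hu0
      apply hsm
      intro j
      have h5 := congrArg (eval (Pi.single j (1 : ℂ))) h4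
      simp only [hB, map_sum, map_mul, eval_X, eval_C, map_zero] at h5
      rw [Finset.sum_eq_single j] at h5
      · simpa using h5
      · intro i _ hij
        rw [Pi.single_eq_of_ne hij, zero_mul]
      · intro h6
        exact absurd (Finset.mem_univ j) h6
    have ha0 : a ≠ 0 := by
      rintro rfl
      rw [mul_zero, zero_mul, add_zero, zero_pow (by norm_num), zero_mul, add_zero] at h3
      exact mul_ne_zero (pow_ne_zero 2 hb0) hF0 h3
    have hbB : b ∣ B := by
      have h4 : b ∣ a ^ 2 * B := ⟨-(b * F + a * A), by linear_combination h3⟩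
      have h5 : IsRelPrime b (a ^ 2) := (hab.symm).pow_right
      exact h5.dvd_of_dvd_mul_left h4
    have haF : a ∣ F := by
      have h4 : a ∣ b ^ 2 * F := ⟨-(b * A + a * B), by linear_combination h3⟩
      have h5 : IsRelPrime a (b ^ 2) := hab.pow_right
      exact h5.dvd_of_dvd_mul_left h4
    obtain ⟨b', hb'⟩ := hbB
    obtain ⟨f', hf'⟩ := haF
    have h6 : b * f' + A + a * b' = 0 := by
      have h4 : b * a * (b * f' + A + a * b') = 0 := by
        rw [← h3, hb', hf']
        ring
      exact (mul_eq_zero.1 h4).resolve_left (mul_ne_zero hb0 ha0)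
    -- degrees
    have hb'0 : b' ≠ 0 := by
      rintro rfl
      rw [mul_zero] at hb'
      exact hB0 hb'
    have hf'0 : f' ≠ 0 := by
      rintro rfl
      rw [mul_zero] at hf'
      exact hF0 hf'
    have hBh : B.IsHomogeneous 1 := by
      refine IsHomogeneous.sum _ _ _ fun i _ => ?_
      have := (isHomogeneous_X ℂ i).mul (isHomogeneous_C (Fin (n + 2)) (eval (e 0) (pderiv i F)))
      rwa [add_zero] at this
    have hAh : A.IsHomogeneous 2 := by
      refine IsHomogeneous.sum _ _ _ fun i _ => ?_
      have := (isHomogeneous_C (Fin (n + 2)) (e 0 i)).mul (hF.pderiv (i := i))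
      simpa using this
    have hdB : b.totalDegree + b'.totalDegree = 1 := by
      rw [← totalDegree_mul_of_isDomain hb0 hb'0, ← hb', hBh.totalDegree hB0]
    have hdF : a.totalDegree + f'.totalDegree = 3 := by
      rw [← totalDegree_mul_of_isDomain ha0 hf'0, ← hf', hF.totalDegree hF0]
    have hdA : A.totalDegree ≤ 2 := hAh.totalDegree_le
    have h7 := totalDegree_mul_of_isDomain hb0 hf'0
    have h8 := totalDegree_mul_of_isDomain ha0 hb'0
    rcases hirr.isUnit_or_isUnit hf' with hu | hu
    · have h9 : a.totalDegree = 0 := by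
        rw [MvPolynomial.isUnit_iff_eq_C_of_isReduced] at hu
        obtain ⟨z, -, rfl⟩ := hu
        exact totalDegree_C z
      have h10 : b * f' = -(A + a * b') := by linear_combination h6
      have h11 : (b * f').totalDegree ≤ 2 := by
        rw [h10, totalDegree_neg]
        refine (totalDegree_add _ _).trans (max_le hdA ?_)
        omega
      omega
    · have h9 : f'.totalDegree = 0 := by
        rw [MvPolynomial.isUnit_iff_eq_C_of_isReduced] at hu
        obtain ⟨z, -, rfl⟩ := hu
        exact totalDegree_C z
      have h10 : a * b' = -(A + b * f') := by linear_combination h6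
      have h11 : (a * b').totalDegree ≤ 2 := by
        rw [h10, totalDegree_neg]
        refine (totalDegree_add _ _).trans (max_le hdA ?_)
        omega
      omega
  · omega

end

end Pool.Agent.Q35.UL
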