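import Mathlib
import Pool.Agent.Q35.UL.Two
import Pool.Agent.Q35.PL.Law2

/-! # Project UL: parametrizations by cubic forms with a base point -/

set_option autoImplicit false

namespace Pool.Agent.Q35.UL

open MvPolynomial Pool.Agent.TH314.PD Module Pool.Agent.Q35.PL

noncomputable section

variable {n m : ℕ} {F : MvPolynomial (Fin (n + 2)) ℂ}

/-- the derivatives of the forms at the base point -/
def DD (G : Fin (n + 2) → MvPolynomial (Fin (m + 2)) ℂ) (b : Fin (m + 2) → ℂ) (l : Fin (m + 2)) :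
    Fin (n + 2) → ℂ := fun i => eval b (pderiv l (G i))

/-- the tangent directions at a base point are contained in the hypersurface -/
theorem van_D (hF : F.IsHomogeneous 3) {G : Fin (n + 2) → MvPolynomial (Fin (m + 2)) ℂ}
    (h0 : aeval G F = 0) {b : Fin (m + 2) → ℂ} (hb : ∀ i, eval b (G i) = 0)
    (c : Fin (m + 2) → ℂ) : eval (fun i => ∑ l, c l * DD G b l i) F = 0 := by
  let P : Fin (n + 2) → Polynomial ℂ := fun i => bin (G i) b c
  have hP0 : ∀ i, (P i).coeff 0 = 0 := by
    intro i
    have h1 := coeff_bin (M := ℂ) b c (G i)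
    rw [aeval_eq_eval] at h1
    rw [← hb i]
    exact h1
  have hP1 : ∀ i, (P i).coeff 1 = ∑ l, c l * DD G b l i := by
    intro i
    have h1 := bin_one (M := ℂ) (F := G i) b c
    rw [show (P i).coeff 1 = (bin (G i) b c).coeff 1 from rfl, h1]
    refine Finset.sum_congr rfl fun l _ => ?_
    rw [aeval_eq_eval]
    rfl
  have hPX : ∀ i, P i = Polynomial.X * (P i).divX := by
    intro i
    have h1 := Polynomial.X_mul_divX_add (P i)
    rw [hP0, Polynomial.C_0, add_zero] at h1
    exact h1.symm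
  have hPF : aeval P F = 0 := by
    have h1 := aeval_comp (R := Polynomial ℂ)
      (fun i => Polynomial.C (b i) + Polynomial.X * Polynomial.C (c i)) G F
    rw [h0, map_zero] at h1
    exact h1.symm
  have h1 : P = fun i => Polynomial.X * (P i).divX := funext hPX
  rw [h1, aeval_smul_form hF] at hPF
  have h2 : aeval (fun i => (P i).divX) F = 0 :=
    (mul_eq_zero.1 hPF).resolve_left (pow_ne_zero 3 Polynomial.X_ne_zero)
  have h3 := congrArg (Polynomial.aeval (0 : ℂ)) h2
  rw [map_zero] at h3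
  have h4 : Polynomial.aeval (0 : ℂ) (aeval (fun i => (P i).divX) F) =
      aeval (fun i => Polynomial.aeval (0 : ℂ) (P i).divX) F := by
    have h5 : ((Polynomial.aeval (0 : ℂ)).comp (aeval fun i => (P i).divX) :
        MvPolynomial (Fin (n + 2)) ℂ →ₐ[ℂ] ℂ) =
        aeval (fun i => Polynomial.aeval (0 : ℂ) (P i).divX) := by
      apply algHom_ext
      intro i
      rw [AlgHom.comp_apply, aeval_X, aeval_X]
    rw [← h5]
    rfl
  rw [h4, aeval_eq_eval] at h3
  have h5 : (fun i => Polynomial.aeval (0 : ℂ) (P i).divX) = fun i => ∑ l, c l * DD G b l i := by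
    funext i
    rw [← hP1 i, Polynomial.coe_aeval_eq_eval, ← Polynomial.coeff_zero_eq_eval_zero,
      Polynomial.coeff_divX]
  rw [h5] at h3
  exact h3

/-- a basis of the space of the tangent directions -/
theorem exists_e {D : Fin (m + 2) → Fin (n + 2) → ℂ}
    (hD : ∀ c : Fin (m + 2) → ℂ, eval (fun i => ∑ l, c l * D l i) F = 0) :
    ∃ (k : ℕ) (e : Fin k → Fin (n + 2) → ℂ) (A : Fin (m + 2) → Fin k → ℂ),
      LinearIndependent ℂ e ∧ (∀ l i, D l i = ∑ a, A l a * e a i) ∧
      ∀ c : Fin k → ℂ, eval (fun i => ∑ a, c a * e a i) F = 0 := by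
  let U := Submodule.span ℂ (Set.range D)
  let bas := Module.finBasis ℂ U
  refine ⟨finrank ℂ U, fun a => (bas a : Fin (n + 2) → ℂ),
    fun l a => bas.repr ⟨D l, Submodule.subset_span ⟨l, rfl⟩⟩ a, ?_, ?_, ?_⟩
  · exact bas.linearIndependent.map' U.subtype (Submodule.ker_subtype U)
  · intro l i
    have h1 := bas.sum_repr ⟨D l, Submodule.subset_span ⟨l, rfl⟩⟩
    have h2 := congrArg (fun v : U => (v : Fin (n + 2) → ℂ) i) h1
    simp only at h2
    refine h2.symm.trans ?_
    rw [AddSubmonoidClass.coe_finsetSum, Finset.sum_apply]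
    rfl
  · intro c
    have h1 : (∑ a, c a • (bas a : Fin (n + 2) → ℂ)) ∈ U :=
      sum_mem fun a _ => U.smul_mem _ (bas a).2
    rw [Submodule.mem_span_range_iff_exists_fun] at h1
    obtain ⟨c', hc'⟩ := h1
    have h2 := hD c'
    have h3 : (fun i => ∑ l, c' l * D l i) = fun i => ∑ a, c a * (bas a : Fin (n + 2) → ℂ) i := by
      funext i
      have h4 := congrFun hc' i
      simp only [Finset.sum_apply, Pi.smul_apply, smul_eq_mul] at h4
      exact h4
    rw [h3] at h2
    exact h2

/-- a linear change of coordinates -/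
theorem exists_change {b : Fin (m + 2) → ℂ} (hb : b ≠ 0) :
    ∃ T T' : Fin (m + 2) → Fin (m + 2) → ℂ, (∀ l, T l 1 = b l) ∧
      (∀ l j, ∑ i, T l i * T' i j = if l = j then 1 else 0) ∧
      ∀ l j, ∑ i, T' l i * T i j = if l = j then 1 else 0 := by
  classical
  have h1 : (Pi.single 1 1 : Fin (m + 2) → ℂ) ≠ 0 := by
    intro h
    have := congrFun h 1
    simp at this
  obtain ⟨A, hA⟩ := SeparatingDual.exists_continuousLinearEquiv_apply_eq (R := ℂ) h1 hb
  let f : (Fin (m + 2) → ℂ) →ₗ[ℂ] (Fin (m + 2) → ℂ) := A.toLinearEquiv.toLinearMap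
  let g : (Fin (m + 2) → ℂ) →ₗ[ℂ] (Fin (m + 2) → ℂ) := A.symm.toLinearEquiv.toLinearMap
  have hfg : f ∘ₗ g = LinearMap.id := by
    refine LinearMap.ext fun v => ?_
    exact A.apply_symm_apply v
  have hgf : g ∘ₗ f = LinearMap.id := by
    refine LinearMap.ext fun v => ?_
    exact A.symm_apply_apply v
  refine ⟨LinearMap.toMatrix' f, LinearMap.toMatrix' g, ?_, ?_, ?_⟩
  · intro l
    rw [LinearMap.toMatrix'_apply, ← hA]
    rfl
  · intro l j
    have h2 : LinearMap.toMatrix' f * LinearMap.toMatrix' g = 1 := by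
      rw [← LinearMap.toMatrix'_comp, hfg, LinearMap.toMatrix'_id]
    have h3 := congrFun (congrFun h2 l) j
    rw [Matrix.mul_apply, Matrix.one_apply] at h3
    exact h3
  · intro l j
    have h2 : LinearMap.toMatrix' g * LinearMap.toMatrix' f = 1 := by
      rw [← LinearMap.toMatrix'_comp, hgf, LinearMap.toMatrix'_id]
    have h3 := congrFun (congrFun h2 l) j
    rw [Matrix.mul_apply, Matrix.one_apply] at h3
    exact h3

/-- linear substitution -/
def lin (T : Fin (m + 2) → Fin (m + 2) → ℂ) (l : Fin (m + 2)) : MvPolynomial (Fin (m + 2)) ℂ :=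
  ∑ j, C (T l j) * X j

lemma lin_hom (T : Fin (m + 2) → Fin (m + 2) → ℂ) (l : Fin (m + 2)) :
    (lin T l).IsHomogeneous 1 := by
  refine IsHomogeneous.sum _ _ _ fun j _ => ?_
  have := (isHomogeneous_C (Fin (m + 2)) (T l j)).mul (isHomogeneous_X ℂ j)
  rwa [zero_add] at this

lemma aeval_lin {A : Type} [CommRing A] [Algebra ℂ A] (T : Fin (m + 2) → Fin (m + 2) → ℂ)
    (s : Fin (m + 2) → A) (l : Fin (m + 2)) :
    aeval s (lin T l) = ∑ j, algebraMap ℂ A (T l j) * s j := by
  simp only [lin, map_sum, map_mul, aeval_C, aeval_X]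

lemma lin_lin {A : Type} [CommRing A] [Algebra ℂ A] {T T' : Fin (m + 2) → Fin (m + 2) → ℂ}
    (hT : ∀ l j, ∑ i, T l i * T' i j = if l = j then 1 else 0) (s : Fin (m + 2) → A)
    (l : Fin (m + 2)) :
    aeval (fun j => aeval s (lin T' j)) (lin T l) = s l := by
  classical
  rw [aeval_lin]
  simp only [aeval_lin, Finset.mul_sum]
  rw [Finset.sum_comm]
  have h1 : ∀ j, ∑ i, algebraMap ℂ A (T l i) * (algebraMap ℂ A (T' i j) * s j) =
      (if l = j then 1 else 0) * s j := by
    intro j
    have h2 := congrArg (algebraMap ℂ A) (hT l j)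
    rw [map_sum] at h2
    simp only [map_mul] at h2
    have h3 : algebraMap ℂ A (if l = j then 1 else 0) = if l = j then 1 else 0 := by
      split_ifs
      · exact map_one _
      · exact map_zero _
    rw [← h3, ← h2, Finset.sum_mul]
    refine Finset.sum_congr rfl fun i _ => ?_
    ring
  rw [Finset.sum_congr rfl fun j _ => h1 j, Finset.sum_eq_single l]
  · rw [if_pos rfl, one_mul]
  · intro j _ hj
    rw [if_neg (fun h => hj h.symm), zero_mul]
  · intro h
    exact absurd (Finset.mem_univ l) h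

/-- a general point in the new coordinates -/
theorem gen_change {M : Type} [Field M] [Algebra ℂ M] {s : Fin (m + 2) → M}
    (hs : ∀ (e : ℕ) (H : MvPolynomial (Fin (m + 2)) ℂ), H.IsHomogeneous e → aeval s H = 0 → H = 0)
    {T T' : Fin (m + 2) → Fin (m + 2) → ℂ}
    (hT : ∀ l j, ∑ i, T' l i * T i j = if l = j then 1 else 0) :
    ∀ (e : ℕ) (H : MvPolynomial (Fin (m + 2)) ℂ), H.IsHomogeneous e →
      aeval (fun j => aeval s (lin T' j)) H = 0 → H = 0 := by
  intro e H hH h0
  have h1 : aeval s (aeval (lin T') H) = 0 := by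
    rw [aeval_comp]
    exact h0
  have h2 := hs (1 * e) _ (hH.aeval _ (lin_hom T')) h1
  have h3 : aeval (lin T) (aeval (lin T') H) = H := by
    rw [aeval_comp]
    have h4 : (fun l => aeval (lin T) (lin T' l)) = X := by
      funext l
      have h5 := lin_lin hT (X : Fin (m + 2) → MvPolynomial (Fin (m + 2)) ℂ) l
      have h6 : (fun j => aeval (X : Fin (m + 2) → MvPolynomial (Fin (m + 2)) ℂ) (lin T j)) =
          lin T := by
        funext j
        rw [aeval_X_left_apply]
      rw [h6] at h5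
      exact h5
    rw [h4, aeval_X_left_apply]
  rw [← h3, h2, map_zero]

end

end Pool.Agent.Q35.UL
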