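import Mathlib
import Pool.Agent.Q35.UL.Param

/-! # Project UL: parametrizations by cubic forms with a base point (end) -/

set_option autoImplicit false

namespace Pool.Agent.Q35.UL

open MvPolynomial Pool.Agent.TH314.PD Module Pool.Agent.Q35.PL

noncomputable section

variable {n m : ℕ} {F : MvPolynomial (Fin (n + 2)) ℂ}

/-- parametrizations by cubic forms which vanish at a coordinate point -/
theorem param_one (hF : F.IsHomogeneous 3)
    (hsm : ∀ z : Fin (n + 2) → ℂ, (∀ i, eval z (pderiv i F) = 0) → z = 0)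
    {G : Fin (n + 2) → MvPolynomial (Fin (m + 2)) ℂ} (hG : ∀ i, (G i).IsHomogeneous 3)
    (h0 : aeval G F = 0) (hb : ∀ i, eval (Pi.single 1 1) (G i) = 0)
    {M : Type} [Field M] [Algebra ℂ M] {y : Fin (m + 1) → M} (hy : AlgebraicIndependent ℂ y)
    (hx : IsGen F fun i => aeval (Fin.cons 1 y : Fin (m + 2) → M) (G i))
    (hodd : Odd (finrank (ratioField fun i =>
      aeval (Fin.cons 1 y : Fin (m + 2) → M) (G i)) M)) :
    ∃ (k : ℕ) (e : Fin k → Fin (n + 2) → ℂ), LinearIndependent ℂ e ∧
      (∀ c : Fin k → ℂ, eval (fun i => ∑ a, c a * e a i) F = 0) ∧ Section F e ∧ 2 ≤ k := by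
  classical
  have hF0 : F ≠ 0 := ne_zero_of_smooth (m := n + 1) hsm
  have hirr : Irreducible F := Pool.Agent.Y201.LI.irreducible_of_generic hF hF0 _ hx.1 hx.2
  obtain ⟨k, e, A, hel, hA, he⟩ := exists_e (van_D hF h0 hb)
  let L : IntermediateField ℂ M := IntermediateField.adjoin ℂ (y '' {0}ᶜ)
  have ht : Transcendental L (y 0) := (Pool.Agent.Y201.LI.linear_poly y hy 0).1
  let w : Fin (m + 2) → L := Fin.cons 1 fun j =>
    if h : j = 0 then 0 else ⟨y j, IntermediateField.subset_adjoin ℂ _ ⟨j, h, rfl⟩⟩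
  have hw : ∀ l, (Fin.cons 1 y : Fin (m + 2) → M) l =
      (w l : M) + y 0 * algebraMap ℂ M ((Pi.single 1 1 : Fin (m + 2) → ℂ) l) := by
    intro l
    refine Fin.cases ?_ (fun j => ?_) l
    · have h1 : (Pi.single 1 1 : Fin (m + 2) → ℂ) 0 = 0 := by
        rw [Pi.single_eq_of_ne]
        exact Fin.zero_ne_one
      simp only [w, Fin.cons_zero]
      rw [h1, map_zero, mul_zero, add_zero]
      rfl
    · simp only [w, Fin.cons_succ]
      by_cases hj : j = 0
      · subst hj
        rw [dif_pos rfl]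
        have h1 : (Pi.single 1 1 : Fin (m + 2) → ℂ) (Fin.succ 0) = 1 := by
          rw [Fin.succ_zero_eq_one]
          exact Pi.single_eq_same _ _
        rw [h1, map_one, mul_one]
        exact (zero_add _).symm
      · rw [dif_neg hj]
        have h1 : (Pi.single 1 1 : Fin (m + 2) → ℂ) (Fin.succ j) = 0 := by
          rw [Pi.single_eq_of_ne]
          intro h
          apply hj
          rw [← Fin.succ_zero_eq_one] at h
          exact Fin.succ_injective _ h
        rw [h1, map_zero, mul_zero, add_zero]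
  have hbm : ∀ H : MvPolynomial (Fin (m + 2)) ℂ,
      aeval (fun l => algebraMap ℂ M ((Pi.single 1 1 : Fin (m + 2) → ℂ) l)) H =
        algebraMap ℂ M (eval (Pi.single 1 1) H) := by
    intro H
    rw [← aeval_eq_eval]
    exact aeval_algebraMap_apply M _ H
  have hwm : ∀ H : MvPolynomial (Fin (m + 2)) ℂ,
      aeval (fun l => (w l : M)) H = ((aeval w H : L) : M) := fun H =>
    aeval_algebraMap_apply M w H
  let Cc : Fin (n + 2) → L := fun i => aeval w (G i)
  let Q : Fin (n + 2) → L := fun i =>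
    ∑ l, algebraMap ℂ L ((Pi.single 1 1 : Fin (m + 2) → ℂ) l) * aeval w (pderiv l (G i))
  let μ : Fin k → L := fun a => ∑ l, w l * algebraMap ℂ L (A l a)
  let lam : Fin (n + 2) → M := fun i => ∑ a, (μ a : M) * algebraMap ℂ M (e a i)
  have hxe : ∀ i, aeval (Fin.cons 1 y : Fin (m + 2) → M) (G i) =
      (Cc i : M) + y 0 * (Q i : M) + (y 0) ^ 2 * lam i := by
    intro i
    have h1 : (Fin.cons 1 y : Fin (m + 2) → M) = fun l =>
        (w l : M) + y 0 * algebraMap ℂ M ((Pi.single 1 1 : Fin (m + 2) → ℂ) l) := funext hw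
    rw [h1, cub_exp (hG i), hbm, hb, map_zero, mul_zero, add_zero]
    have h2 : ∑ l, (w l : M) * aeval (fun l => algebraMap ℂ M
        ((Pi.single 1 1 : Fin (m + 2) → ℂ) l)) (pderiv l (G i)) = lam i := by
      simp only [lam, μ]
      have h3 : ∀ l, (w l : M) * aeval (fun l => algebraMap ℂ M
          ((Pi.single 1 1 : Fin (m + 2) → ℂ) l)) (pderiv l (G i)) =
          ∑ a, (w l : M) * (algebraMap ℂ M (A l a) * algebraMap ℂ M (e a i)) := by
        intro l
        rw [hbm]
        have h4 := hA l i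
        have h5 : eval (Pi.single 1 1) (pderiv l (G i)) = ∑ a, A l a * e a i := h4
        rw [h5, map_sum, Finset.mul_sum]
        refine Finset.sum_congr rfl fun a _ => ?_
        rw [map_mul]
      rw [Finset.sum_congr rfl fun l _ => h3 l, Finset.sum_comm]
      refine Finset.sum_congr rfl fun a _ => ?_
      have h4 : ((∑ l, w l * algebraMap ℂ L (A l a) : L) : M) =
          ∑ l, (w l : M) * algebraMap ℂ M (A l a) := by
        rw [← IntermediateField.algebraMap_apply, map_sum]
        refine Finset.sum_congr rfl fun l _ => ?_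
        rw [map_mul]
        rfl
      rw [h4, Finset.sum_mul]
      refine Finset.sum_congr rfl fun l _ => ?_
      ring
    rw [h2]
    have h3 : ∑ l, algebraMap ℂ M ((Pi.single 1 1 : Fin (m + 2) → ℂ) l) *
        aeval (fun l => (w l : M)) (pderiv l (G i)) = (Q i : M) := by
      simp only [Q]
      rw [← IntermediateField.algebraMap_apply, map_sum]
      refine Finset.sum_congr rfl fun l _ => ?_
      rw [map_mul, hwm]
      rfl
    rw [h3, hwm]
  by_cases hlam0 : lam = 0
  · exfalso
    have h1 : (fun i => aeval (Fin.cons 1 y : Fin (m + 2) → M) (G i)) =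
        fun i => y 0 * (Q i : M) + (Cc i : M) := by
      funext i
      rw [hxe, hlam0, Pi.zero_apply, mul_zero, add_zero, add_comm]
    rw [h1] at hx hodd
    have hd := Pool.Agent.Y201.LI.linear_param (r := n + 1) hF (by norm_num) hsm L (y 0) ht
      (fun j => (Q j : M)) (fun j => (Cc j : M)) (fun j => (Q j).2) (fun j => (Cc j).2) hx.1 hx.2
    rcases hodd with ⟨c, hc⟩
    rw [hc] at hd
    omega
  · have hsec : Section F e := conic_section hF hsm hel he L ht Q Cc μ (fun i => rfl) hlam0 hxe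
      hx hodd
    exact ⟨k, e, hel, he, hsec, two_le hF hsm hirr hel he hsec⟩

/-- parametrizations of odd degree by cubic forms with a base point -/
theorem param (hF : F.IsHomogeneous 3)
    (hsm : ∀ z : Fin (n + 2) → ℂ, (∀ i, eval z (pderiv i F) = 0) → z = 0)
    {G : Fin (n + 2) → MvPolynomial (Fin (m + 2)) ℂ} (hG : ∀ i, (G i).IsHomogeneous 3)
    (h0 : aeval G F = 0) {b : Fin (m + 2) → ℂ} (hb0 : b ≠ 0) (hb : ∀ i, eval b (G i) = 0)
    {M : Type} [Field M] [Algebra ℂ M] {s : Fin (m + 2) → M}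
    (hs : ∀ (e : ℕ) (H : MvPolynomial (Fin (m + 2)) ℂ), H.IsHomogeneous e → aeval s H = 0 → H = 0)
    (hx : IsGen F fun i => aeval s (G i))
    (hodd : Odd (finrank (ratioField fun i => aeval s (G i)) M)) :
    ∃ (k : ℕ) (e : Fin k → Fin (n + 2) → ℂ), LinearIndependent ℂ e ∧
      (∀ c : Fin k → ℂ, eval (fun i => ∑ a, c a * e a i) F = 0) ∧ Section F e ∧ 2 ≤ k := by
  classical
  obtain ⟨T, T', hT1, hTT', hT'T⟩ := exists_change hb0
  set z : Fin (m + 2) → M := fun j => aeval s (lin T' j) with hz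
  have hzg := gen_change hs hT'T
  have hzs : ∀ l, aeval z (lin T l) = s l := fun l => lin_lin hTT' s l
  have hz0 : z 0 ≠ 0 := by
    intro h
    have h1 := hzg 1 (X 0) (isHomogeneous_X _ _) (by rw [aeval_X]; exact h)
    exact X_ne_zero 0 h1
  let G' : Fin (n + 2) → MvPolynomial (Fin (m + 2)) ℂ := fun i => aeval (lin T) (G i)
  have hG' : ∀ i, (G' i).IsHomogeneous 3 := fun i => by
    have := (hG i).aeval _ (lin_hom T)
    rwa [one_mul] at this
  have h0' : aeval G' F = 0 := by
    have h1 := aeval_comp (lin T) G F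
    rw [h0, map_zero] at h1
    exact h1.symm
  have hb' : ∀ i, eval (Pi.single 1 1) (G' i) = 0 := by
    intro i
    rw [← hb i, ← aeval_eq_eval, ← aeval_eq_eval]
    show aeval _ (aeval (lin T) (G i)) = _
    rw [aeval_comp]
    congr 2
    funext l
    rw [aeval_lin, Finset.sum_eq_single 1]
    · rw [Pi.single_eq_same, mul_one, hT1]
      rfl
    · intro j _ hj
      rw [Pi.single_eq_of_ne hj, mul_zero]
    · intro h
      exact absurd (Finset.mem_univ _) h
  have hxz : ∀ i, aeval s (G i) = aeval z (G' i) := by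
    intro i
    show _ = aeval z (aeval (lin T) (G i))
    rw [aeval_comp]
    congr 2
    funext l
    exact (hzs l).symm
  have hxy : (fun i => aeval s (G i)) = fun i => (z 0) ^ 3 *
      aeval (Fin.cons 1 (aff z) : Fin (m + 2) → M) (G' i) := by
    funext i
    rw [hxz i]
    conv_lhs => rw [cons_aff z hz0]
    rw [aeval_smul_form (hG' i)]
  rw [hxy] at hx hodd
  have hz3 : (z 0) ^ 3 ≠ 0 := pow_ne_zero 3 hz0
  rw [ratio_smul _ hz3] at hodd
  have hx' := isGen_smul hF hz3 hx
  exact param_one hF hsm hG' h0' hb' (inj_aff hz0 hzg) hx' hodd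

end

end Pool.Agent.Q35.UL
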