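import Mathlib
import Pool.Agent.Q35.UL.Param2
import Pool.Agent.Q176.UL.Nb

/-! # Project UL: parametrizations of odd degree by cubic polynomials -/

set_option autoImplicit false

namespace Pool.Agent.Q35.UL

open MvPolynomial Pool.Agent.TH314.PD Module Pool.Agent.Q35.PL Pool.Agent.Y201.LI

noncomputable section

/-- parametrizations of odd degree by cubic polynomials -/
theorem odd_cubic {n : ℕ} (hn : 2 ≤ n) {F : MvPolynomial (Fin (n + 2)) ℂ} (hF : F.IsHomogeneous 3)
    (hsm : ∀ z : Fin (n + 2) → ℂ, (∀ i, eval z (pderiv i F) = 0) → z = 0)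
    (G : Fin (n + 2) → MvPolynomial (Fin n) ℂ) (hdeg : ∀ i, (G i).totalDegree ≤ 3)
    (h1 : aeval G F = 0)
    (h2 : ∀ (e : ℕ) (H : MvPolynomial (Fin (n + 2)) ℂ), H.IsHomogeneous e → aeval G H = 0 → F ∣ H)
    (hodd : Odd (finrank (ratioField fun i => algebraMap (MvPolynomial (Fin n) ℂ)
      (FractionRing (MvPolynomial (Fin n) ℂ)) (G i)) (FractionRing (MvPolynomial (Fin n) ℂ)))) :
    ∃ (k : ℕ) (e : Fin k → Fin (n + 2) → ℂ), LinearIndependent ℂ e ∧
      (∀ c : Fin k → ℂ, eval (fun i => ∑ a, c a * e a i) F = 0) ∧ Section F e ∧ 2 ≤ k := by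
  obtain ⟨m, rfl⟩ : ∃ m, n = m + 1 := ⟨n - 1, by omega⟩
  have hF0 : F ≠ 0 := ne_zero_of_smooth (m := m + 1 + 1) hsm
  obtain ⟨hfd, hb⟩ := bound (d := 3) (k := 3) (by norm_num) F hF hsm G hdeg h1 h2
  let M := FractionRing (MvPolynomial (Fin (m + 1)) ℂ)
  let al : MvPolynomial (Fin (m + 1)) ℂ →ₐ[ℂ] M := IsScalarTower.toAlgHom ℂ _ M
  have hal : Function.Injective al := IsFractionRing.injective (MvPolynomial (Fin (m + 1)) ℂ) M
  set y : Fin (m + 1 + 2) → M := fun i => al (G i) with hy
  have hfd' : FiniteDimensional (ratioField y) M := hfd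
  have hodd' : Odd (finrank (ratioField y) M) := hodd
  have hb' : finrank (ratioField y) M * (3 * (3 - 1) ^ (m + 1)) ≤
      (m + 1 + 1) * (3 - 1) ^ (m + 1) := hb
  have h3δ : 3 * finrank (ratioField y) M ≤ m + 2 := by
    have h5 : 0 < (3 - 1) ^ (m + 1) := by positivity
    refine Nat.le_of_mul_le_mul_right ?_ h5
    calc 3 * finrank (ratioField y) M * (3 - 1) ^ (m + 1)
        = finrank (ratioField y) M * (3 * (3 - 1) ^ (m + 1)) := by ring
      _ ≤ (m + 1 + 1) * (3 - 1) ^ (m + 1) := hb'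
  set s : Fin (m + 2) → M := Fin.cons 1 (fun l => al (X l)) with hs
  have hsal : ∀ H : MvPolynomial (Fin (m + 2)) ℂ, aeval s H =
      al (aeval (Fin.cons 1 X : Fin (m + 2) → MvPolynomial (Fin (m + 1)) ℂ) H) := by
    intro H
    have h3 : al.comp (aeval (Fin.cons 1 X : Fin (m + 2) → MvPolynomial (Fin (m + 1)) ℂ)) =
        aeval s := by
      apply algHom_ext
      intro i
      rw [AlgHom.comp_apply, aeval_X, aeval_X, hs]
      refine Fin.cases ?_ (fun l => ?_) i
      · rw [Fin.cons_zero, Fin.cons_zero, map_one]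
      · rw [Fin.cons_succ, Fin.cons_succ]
    rw [← h3]
    rfl
  have hs0 : ∀ (e : ℕ) (H : MvPolynomial (Fin (m + 2)) ℂ), H.IsHomogeneous e → aeval s H = 0 →
      H = 0 := by
    intro e H hH h
    rw [hsal] at h
    exact Pool.Agent.Y201.C3.generic_zero H hH (hal (by rw [h, map_zero]))
  have hgen : ratioField s = ⊤ := by
    have h3 : ∀ p : MvPolynomial (Fin (m + 1)) ℂ, al p ∈ ratioField s := by
      intro p
      induction p using MvPolynomial.induction_on with
      | C a =>
        have : al (C a) = algebraMap ℂ M a := al.commutes a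
        rw [this]
        exact (ratioField s).algebraMap_mem a
      | add f g hf hg =>
        rw [map_add]
        exact add_mem hf hg
      | mul_X f i hf =>
        rw [map_mul]
        refine mul_mem hf (IntermediateField.subset_adjoin _ _ ⟨i.succ, 0, ?_⟩)
        rw [hs, Fin.cons_succ, Fin.cons_zero, div_one]
    rw [eq_top_iff]
    intro z _
    obtain ⟨a, b, h⟩ := IsFractionRing.div_surjective (A := MvPolynomial (Fin (m + 1)) ℂ) z
    rw [← h.2]
    exact div_mem (h3 a) (h3 b)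
  choose Gh hGh hGv using fun i => Pool.Agent.Y201.C3.homog3 (G i) (hdeg i)
  have hGs : (fun i => aeval s (Gh i)) = y := by
    funext i
    rw [hy]
    simp only
    rw [hsal, hGv, aeval_X_left_apply]
  have hay : ∀ H : MvPolynomial (Fin (m + 1 + 2)) ℂ, aeval y H = al (aeval G H) := by
    intro H
    have : (aeval y : MvPolynomial (Fin (m + 1 + 2)) ℂ →ₐ[ℂ] M) = al.comp (aeval G) := by
      apply algHom_ext
      intro i
      rw [aeval_X, AlgHom.comp_apply, aeval_X]
    rw [this, AlgHom.comp_apply]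
  have hGF : aeval Gh F = 0 := by
    refine hs0 (3 * 3) _ (hF.aeval _ hGh) ?_
    rw [aeval_comp, hGs, hay, h1, map_zero]
  have hx : IsGen F fun i => aeval s (Gh i) := by
    rw [hGs]
    refine ⟨by rw [hay, h1, map_zero], fun e H hH h => ?_⟩
    rw [hay] at h
    exact h2 e H hH (hal (by rw [h, map_zero]))
  by_cases hbase : ∀ b : Fin (m + 2) → ℂ, (∀ i, eval b (Gh i) = 0) → b = 0
  · exfalso
    have h5 := Pool.Agent.Q176.UL.nb (m + 1) 3 3 F hF hF0 (by norm_num) M s hs0 hgen Gh hGh hGF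
      hbase (by rw [hGs]; exact hfd')
    rw [hGs] at h5
    have h6 : ∀ j : ℕ, j + 3 < 3 ^ (j + 2) := by
      intro j
      induction j with
      | zero => norm_num
      | succ j ih =>
        rw [show j + 1 + 2 = (j + 2) + 1 from rfl, pow_succ]
        omega
    obtain ⟨j, rfl⟩ : ∃ j, m = j + 1 := ⟨m - 1, by omega⟩
    have h7 := h6 j
    have h8 : 3 ^ (j + 1 + 1) = 3 ^ (j + 2) := rfl
    omega
  · push Not at hbase
    obtain ⟨b, hb, hb0⟩ := hbase
    exact param hF hsm hGh hGF hb0 hb hs0 hx (by rw [hGs]; exact hodd')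

end

end Pool.Agent.Q35.UL
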